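import Pool.Agent.R632.Eng.Grp

/-! The rigid level stabilizers have finite index. -/

set_option linter.unusedSectionVars false

namespace Pool.Agent.R632.Eng

open Equiv W

/-- the normal closure of `c = B 1 0` -/
def N : Subgroup (W X) := Subgroup.closure {g | ∃ k ∈ K, g = k * B 1 0 * k⁻¹}

lemma N_le : N ≤ K := by
  unfold N
  rw [Subgroup.closure_le]
  rintro _ ⟨k, hk, rfl⟩
  exact K.mul_mem (K.mul_mem hk (B_mem _ _)) (K.inv_mem hk)

lemma N_conj {k n : W X} (hk : k ∈ K) (hn : n ∈ N) : k * n * k⁻¹ ∈ N := by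
  unfold N at hn
  induction hn using Subgroup.closure_induction with
  | mem g hg =>
    obtain ⟨l, hl, rfl⟩ := hg
    apply Subgroup.subset_closure
    exact ⟨k * l, K.mul_mem hk hl, by group⟩
  | one =>
    rw [mul_one, mul_inv_cancel]
    exact N.one_mem
  | mul g h _ _ hg hh =>
    have : k * (g * h) * k⁻¹ = (k * g * k⁻¹) * (k * h * k⁻¹) := by group
    rw [this]
    exact N.mul_mem hg hh
  | inv g _ hg =>
    have : k * g⁻¹ * k⁻¹ = (k * g * k⁻¹)⁻¹ := by group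
    rw [this]
    exact N.inv_mem hg

lemma at1_32 {n : W X} (hn : n ∈ N) : at1 32 n ∈ K := by
  unfold N at hn
  induction hn using Subgroup.closure_induction with
  | mem g hg =>
    obtain ⟨l, hl, rfl⟩ := hg
    obtain ⟨k, hk, h0, h1⟩ := lift hl
    have := conj_at1 k (B 1 0) 32
    rw [h0, h1, ← B01] at this
    rw [← this]
    exact K.mul_mem (K.mul_mem hk (B_mem _ _)) (K.inv_mem hk)
  | one => rw [map_one]; exact K.one_mem
  | mul g h _ _ hg hh => rw [map_mul]; exact K.mul_mem hg hh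
  | inv g _ hg => rw [map_inv]; exact K.inv_mem hg

lemma at1_mem {n : W X} (hn : n ∈ N) (x : X) : at1 x n ∈ K := by
  obtain ⟨k, hk, hkx⟩ := exists_trans 32 x
  have h1 := conj_at1 k ((k.sec 32)⁻¹ * n * k.sec 32) 32
  rw [hkx] at h1
  have h2 : k.sec 32 * ((k.sec 32)⁻¹ * n * k.sec 32) * (k.sec 32)⁻¹ = n := by group
  rw [h2] at h1
  rw [← h1]
  apply K.mul_mem (K.mul_mem hk (at1_32 _)) (K.inv_mem hk)
  have := N_conj (K.inv_mem (sec_mem hk 32)) hn
  rwa [inv_inv] at this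

lemma B10_mem : B 1 0 ∈ N :=
  Subgroup.subset_closure ⟨1, K.one_mem, by group⟩

/-- the product `a * d` -/
def ad : W X := a * B 0 1

lemma ad_mem : ad ∈ K := K.mul_mem a_mem (B_mem _ _)

lemma a_inv : (a : W X)⁻¹ = a := inv_eq_of_mul_eq_one_left a_mul

lemma ad_pow : ad ^ 4 = 1 := by
  have h1 : ad * ad = at1 (a.rt 32) (B 1 0) * at1 32 (B 1 0) := by
    have h2 := conj_at1 a (B 1 0) 32
    rw [a_sec, one_mul, inv_one, mul_one, ← B01] at h2
    unfold ad
    rw [← h2, ← B01, a_inv]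
    simp only [mul_assoc]
  have h3 : a.rt 32 ≠ 32 := by
    rw [a_rt]
    decide
  have h2 : at1 (a.rt 32) (B 1 0) * at1 32 (B 1 0) = at1 32 (B 1 0) * at1 (a.rt 32) (B 1 0) := by
    apply ext'
    · rfl
    · intro x
      rw [sec_mul, sec_mul, at1_rt, at1_rt, Perm.one_apply]
      by_cases h4 : x = 32
      · subst h4
        rw [at1_sec_ne h3.symm, mul_one, one_mul]
      · rw [at1_sec_ne h4, mul_one, one_mul]
  have h4 : ad ^ 4 = ad * ad * (ad * ad) := by
    rw [pow_succ, pow_succ, pow_two]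
    group
  rw [h4, h1]
  have h5 : at1 (a.rt 32) (B 1 0) * at1 32 (B 1 0) * (at1 (a.rt 32) (B 1 0) * at1 32 (B 1 0)) =
      (at1 (a.rt 32) (B 1 0) * at1 (a.rt 32) (B 1 0)) * (at1 32 (B 1 0) * at1 32 (B 1 0)) := by
    rw [mul_assoc, ← mul_assoc (at1 32 (B 1 0)), ← h2]
    group
  rw [h5, ← map_mul, ← map_mul, B_sq, map_one, map_one, one_mul]

lemma ad_inv : ad⁻¹ = ad ^ 3 := by
  rw [inv_eq_iff_mul_eq_one, ← pow_succ', ad_pow]

lemma a_ad (i : ℕ) : a * ad ^ i = (ad⁻¹) ^ i * a := by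
  have h1 : a * ad * a⁻¹ = ad⁻¹ := by
    unfold ad
    rw [mul_inv_rev, a_inv, inv_eq_of_mul_eq_one_left (B_sq 0 1), ← mul_assoc, a_mul, one_mul]
  have h2 : a * ad ^ i * a⁻¹ = (ad⁻¹) ^ i := by
    rw [← h1, conj_pow]
  rw [← h2]
  group

/-- every element of the group is in one of eight cosets -/
lemma cosets {k : W X} (hk : k ∈ K) : ∃ i j : ℕ, ∃ n ∈ N, k = ad ^ i * a ^ j * n := by
  let T : Set (W X) := {k | ∃ i j : ℕ, ∃ n ∈ N, k = ad ^ i * a ^ j * n}
  have ha : ∀ k ∈ T, a * k ∈ T := by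
    rintro _ ⟨i, j, n, hn, rfl⟩
    refine ⟨3 * i, 1 + j, n, hn, ?_⟩
    rw [← mul_assoc, ← mul_assoc, a_ad, ad_inv, ← pow_mul, pow_add, pow_one]
    group
  have had : ∀ k ∈ T, ad * k ∈ T := by
    rintro _ ⟨i, j, n, hn, rfl⟩
    refine ⟨i + 1, j, n, hn, ?_⟩
    rw [← mul_assoc, ← mul_assoc, ← pow_succ']
  have hd : ∀ k ∈ T, B 0 1 * k ∈ T := by
    intro k hk
    have h1 := ha _ (had _ hk)
    have h2 : a * (ad * k) = B 0 1 * k := by
      unfold ad
      rw [← mul_assoc, ← mul_assoc, a_mul, one_mul]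
    rwa [h2] at h1
  have hc : ∀ k ∈ T, k ∈ K → B 1 0 * k ∈ T := by
    rintro _ ⟨i, j, n, hn, rfl⟩ hk
    have h1 := N_conj (K.inv_mem hk) B10_mem
    rw [inv_inv] at h1
    refine ⟨i, j, n * ((ad ^ i * a ^ j * n)⁻¹ * B 1 0 * (ad ^ i * a ^ j * n)),
      N.mul_mem hn h1, ?_⟩
    group
  have hB : ∀ i j, ∀ k ∈ T, k ∈ K → B i j * k ∈ T := by
    intro i j k hk hkK
    rcases two_cases i with rfl | rfl <;> rcases two_cases j with rfl | rfl
    · rw [B_zero, one_mul]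
      exact hk
    · exact hd k hk
    · exact hc k hk hkK
    · have h1 : B 1 1 = B 0 1 * B 1 0 := by
        rw [B_mul]
        rfl
      rw [h1, mul_assoc]
      exact hd _ (hc k hk hkK)
  have key : ∀ g ∈ K, ∀ k ∈ T, k ∈ K → g * k ∈ T := by
    intro g hg
    induction hg using Subgroup.closure_induction_left with
    | one => intro k hk _; rwa [one_mul]
    | mul_left x hx y hy ih =>
      intro k hk hkK
      rw [mul_assoc]
      have h1 := ih k hk hkK
      have h2 : y * k ∈ K := K.mul_mem hy hkK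
      rcases hx with rfl | ⟨p, rfl⟩
      · exact ha _ h1
      · exact hB _ _ _ h1 h2
    | inv_mul_cancel x hx y hy ih =>
      intro k hk hkK
      rw [mul_assoc]
      have h1 := ih k hk hkK
      have h2 : y * k ∈ K := K.mul_mem hy hkK
      rcases hx with rfl | ⟨p, rfl⟩
      · rw [a_inv]
        exact ha _ h1
      · have h3 : (B p.1 p.2)⁻¹ = B p.1 p.2 := inv_eq_of_mul_eq_one_left (B_sq _ _)
        show (B p.1 p.2)⁻¹ * (y * k) ∈ T
        rw [h3]
        exact hB _ _ _ h1 h2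
  have h1 : (1 : W X) ∈ T := ⟨0, 0, 1, N.one_mem, by group⟩
  have := key k hk 1 h1 K.one_mem
  rwa [mul_one] at this

lemma N_index : N.relIndex K ≠ 0 := by
  have h1 : ∀ q : K ⧸ N.subgroupOf K, ∃ p : Fin 4 × Fin 2,
      q = QuotientGroup.mk (⟨ad ^ (p.1 : ℕ) * a ^ (p.2 : ℕ),
        K.mul_mem (K.pow_mem ad_mem _) (K.pow_mem a_mem _)⟩ : K) := by
    intro q
    obtain ⟨⟨k, hk⟩, rfl⟩ := QuotientGroup.mk_surjective q
    obtain ⟨i, j, n, hn, h⟩ := cosets hk
    refine ⟨(⟨i % 4, Nat.mod_lt _ (by norm_num)⟩, ⟨j % 2, Nat.mod_lt _ (by norm_num)⟩), ?_⟩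
    symm
    rw [QuotientGroup.eq, Subgroup.mem_subgroupOf]
    show (ad ^ (i % 4) * a ^ (j % 2))⁻¹ * k ∈ N
    have h2 : ad ^ (i % 4) = ad ^ i := by
      conv_rhs => rw [← Nat.mod_add_div i 4, pow_add, pow_mul, ad_pow, one_pow, mul_one]
    have h3 : a ^ (j % 2) = a ^ j := by
      conv_rhs => rw [← Nat.mod_add_div j 2, pow_add, pow_mul, pow_two, a_mul, one_pow, mul_one]
    rw [h2, h3, h]
    have h4 : (ad ^ i * a ^ j)⁻¹ * (ad ^ i * a ^ j * n) = n := by group
    rw [h4]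
    exact hn
  have h2 : Finite (K ⧸ N.subgroupOf K) := by
    choose f hf using h1
    apply Finite.of_injective f
    intro q r h
    rw [hf q, hf r, h]
  have h3 : (N.subgroupOf K).FiniteIndex := Subgroup.finiteIndex_of_finite_quotient
  exact h3.index_ne_zero

lemma rist (n : ℕ) : (RistW K n).relIndex K ≠ 0 :=
  rist_of (fun _ hg x => sec_mem hg x) N_le N_index (fun _ hn x => at1_mem hn x) n

end Pool.Agent.R632.Eng
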