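import Pool.Agent.R632.Eng.Br

/-! Contraction and the iterated identity. -/

set_option linter.unusedSectionVars false

namespace Pool.Agent.R632.Eng

open Equiv W

/-- products of at most `n` generators -/
inductive Ln : ℕ → W X → Prop
  | one (n : ℕ) : Ln n 1
  | mulA {n : ℕ} {g : W X} : Ln n g → Ln (n + 1) (a * g)
  | mulB {n : ℕ} {g : W X} (i j : ZMod 2) : Ln n g → Ln (n + 1) (B i j * g)

lemma Ln.mono {n : ℕ} {g : W X} (h : Ln n g) : ∀ {m : ℕ}, n ≤ m → Ln m g := by
  induction h with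
  | one n => intro m _; exact Ln.one m
  | mulA _ ih =>
    intro m hm
    obtain ⟨m, rfl⟩ : ∃ m', m = m' + 1 := ⟨m - 1, by omega⟩
    exact Ln.mulA (ih (by omega))
  | mulB i j _ ih =>
    intro m hm
    obtain ⟨m, rfl⟩ : ∃ m', m = m' + 1 := ⟨m - 1, by omega⟩
    exact Ln.mulB i j (ih (by omega))

lemma Ln.mul {m n : ℕ} {g h : W X} (hg : Ln m g) (hh : Ln n h) : Ln (m + n) (g * h) := by
  induction hg with
  | one m => rw [one_mul]; exact hh.mono (by omega)
  | mulA _ ih =>
    rw [mul_assoc]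
    exact (Ln.mulA ih).mono (by omega)
  | mulB i j _ ih =>
    rw [mul_assoc]
    exact (Ln.mulB i j ih).mono (by omega)

lemma Ln_a : Ln 1 a := by
  have := Ln.mulA (Ln.one 0)
  rwa [mul_one] at this

lemma Ln_B (i j : ZMod 2) : Ln 1 (B i j) := by
  have := Ln.mulB i j (Ln.one 0)
  rwa [mul_one] at this

lemma B_inv (i j : ZMod 2) : (B i j)⁻¹ = B i j := inv_eq_of_mul_eq_one_left (B_sq _ _)

lemma Ln.inv {n : ℕ} {g : W X} (hg : Ln n g) : Ln n g⁻¹ := by
  induction hg with
  | one n => rw [inv_one]; exact Ln.one n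
  | mulA _ ih =>
    rw [mul_inv_rev, a_inv]
    exact ih.mul Ln_a
  | mulB i j _ ih =>
    rw [mul_inv_rev, B_inv]
    exact ih.mul (Ln_B i j)

lemma Ln.zero {g : W X} (hg : Ln 0 g) : g = 1 := by
  cases hg
  rfl

lemma Ln.sq {g : W X} (hg : Ln 1 g) : g * g = 1 := by
  cases hg with
  | one => rw [one_mul]
  | mulA h => rw [h.zero, mul_one, a_mul]
  | mulB i j h => rw [h.zero, mul_one, B_sq]

lemma Ln.mem {n : ℕ} {g : W X} (hg : Ln n g) : g ∈ K := by
  induction hg with
  | one n => exact K.one_mem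
  | mulA _ ih => exact K.mul_mem a_mem ih
  | mulB i j _ ih => exact K.mul_mem (B_mem i j) ih

lemma exists_Ln {g : W X} (hg : g ∈ K) : ∃ n, Ln n g := by
  refine K_ind (P := fun g => ∃ n, Ln n g) ⟨1, Ln_a⟩ (fun i j => ⟨1, Ln_B i j⟩) ⟨0, Ln.one 0⟩
    ?_ ?_ g hg
  · rintro g h ⟨m, hm⟩ ⟨n, hn⟩
    exact ⟨m + n, hm.mul hn⟩
  · rintro g ⟨n, hn⟩
    exact ⟨n, hn.inv⟩

/-- the distance to `0` -/
def ab (y : X) : ℕ := y.valMinAbs.natAbs

lemma ab_zero : ab 0 = 0 := by decide

lemma ab_32 : ab 32 = 32 := by decide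

lemma ab_neg (y : X) : ab (-y) = ab y := ZMod.natAbs_valMinAbs_neg y

lemma ab_le (y : X) : ab y ≤ 32 := by
  have := ZMod.natAbs_valMinAbs_le y
  exact this

lemma ab_a (y : X) : ab (1 - y) ≤ ab y + 1 := by
  have h1 : ab (1 - y) = ab (y - 1) := by
    rw [← ab_neg, neg_sub]
  have h2 := ZMod.natAbs_valMinAbs_add_le y (-1)
  rw [← sub_eq_add_neg] at h2
  have h3 : (-1 : X).valMinAbs = -1 := by decide
  rw [h3] at h2
  have h4 := Int.natAbs_add_le y.valMinAbs (-1)
  rw [h1]
  unfold ab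
  have h5 : (-1 : ℤ).natAbs = 1 := rfl
  omega

lemma ab_a' (y : X) : ab y ≤ ab (1 - y) + 1 := by
  have := ab_a (1 - y)
  rwa [sub_sub_cancel] at this

lemma ab_bp (i : ZMod 2) (y : X) : ab (bp i y) = ab y := by
  rcases two_cases i with rfl | rfl
  · rw [bp_zero, Perm.one_apply]
  · rw [bp_one, ab_neg]

/-- the invariant -/
def Inv (n : ℕ) (y : X) (h : W X) : Prop :=
  h = 1 ∨ (∃ r i h', Ln r h' ∧ h = ap i * h' ∧ r * 32 + 1 + ab y ≤ n) ∨
    ∃ r i j h', Ln r h' ∧ h = B i j * h' ∧ r * 32 + 1 + (32 - ab y) ≤ n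

lemma Ln_ap {n : ℕ} {g : W X} (i : ZMod 2) (h : Ln n g) : Ln (n + 1) (ap i * g) := by
  rcases two_cases i with rfl | rfl
  · rw [ap_zero, one_mul]
    exact h.mono (by omega)
  · exact Ln.mulA h

lemma inv_of_Ln {n : ℕ} {g : W X} (hg : Ln n g) (x : X) : Inv n (g.rt x) (g.sec x) := by
  induction hg with
  | one n => exact Or.inl rfl
  | @mulA n g _ ih =>
    rw [mul_rt, Perm.mul_apply, a_rt, sec_mul, a_sec, one_mul]
    have h1 := ab_a (g.rt x)
    have h2 := ab_a' (g.rt x)
    rcases ih with h | ⟨r, i, h', hr, h, hn⟩ | ⟨r, i, j, h', hr, h, hn⟩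
    · exact Or.inl h
    · exact Or.inr (Or.inl ⟨r, i, h', hr, h, by omega⟩)
    · exact Or.inr (Or.inr ⟨r, i, j, h', hr, h, by omega⟩)
  | @mulB n g i j _ ih =>
    rw [mul_rt, Perm.mul_apply, B_rt, sec_mul]
    by_cases h0 : g.rt x = 0
    · rw [h0] at ih ⊢
      rw [bp_zero', B_sec0]
      rcases ih with h | ⟨r, i', h', hr, h, hn⟩ | ⟨r, i', j', h', hr, h, hn⟩
      · refine Or.inr (Or.inl ⟨0, i, 1, Ln.one 0, by rw [h], ?_⟩)
        rw [ab_zero]
        omega
      · refine Or.inr (Or.inl ⟨r, i + i', h', hr, ?_, by omega⟩)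
        rw [h, ← ap_mul, mul_assoc]
      · refine Or.inr (Or.inl ⟨r + 1, i, g.sec x, ?_, rfl, ?_⟩)
        · rw [h]
          exact Ln.mulB i' j' hr
        · rw [ab_zero] at hn ⊢
          omega
    by_cases h32 : g.rt x = 32
    · rw [h32] at ih ⊢
      rw [bp_32, B_sec32]
      rcases ih with h | ⟨r, i', h', hr, h, hn⟩ | ⟨r, i', j', h', hr, h, hn⟩
      · refine Or.inr (Or.inr ⟨0, j, i, 1, Ln.one 0, by rw [h], ?_⟩)
        rw [ab_32]
        omega
      · refine Or.inr (Or.inr ⟨r + 1, j, i, g.sec x, ?_, rfl, ?_⟩)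
        · rw [h]
          exact Ln_ap i' hr
        · rw [ab_32] at hn ⊢
          omega
      · refine Or.inr (Or.inr ⟨r, j + i', i + j', h', hr, ?_, by omega⟩)
        rw [h, ← B_mul, mul_assoc]
    · rw [B_sec_ne _ _ h0 h32, one_mul]
      have h1 := ab_bp i (g.rt x)
      rcases ih with h | ⟨r, i', h', hr, h, hn⟩ | ⟨r, i', j', h', hr, h, hn⟩
      · exact Or.inl h
      · exact Or.inr (Or.inl ⟨r, i', h', hr, h, by omega⟩)
      · exact Or.inr (Or.inr ⟨r, i', j', h', hr, h, by omega⟩)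

/-- sections contract -/
lemma Ln.sec {n : ℕ} {g : W X} (hg : Ln n g) (x : X) : Ln (n / 32 + 1) (g.sec x) := by
  rcases inv_of_Ln hg x with h | ⟨r, i, h', hr, h, hn⟩ | ⟨r, i, j, h', hr, h, hn⟩
  · rw [h]
    exact Ln.one _
  · rw [h]
    exact (Ln_ap i hr).mono (by omega)
  · rw [h]
    exact (Ln.mulB i j hr).mono (by omega)

lemma Ln.secv {n : ℕ} {g : W X} (hg : Ln n g) (hn : 1 ≤ n) (v : List X) : Ln n (g.secv v) := by
  induction v generalizing g with
  | nil => exact hg
  | cons x v ih => exact ih ((hg.sec x).mono (by omega))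

/-- deep sections are short -/
lemma exists_depth (n : ℕ) : ∃ j0, ∀ y, Ln n y → ∀ v : List X, j0 ≤ v.length →
    Ln 1 (y.secv v) := by
  induction n using Nat.strong_induction_on with
  | _ n ih =>
    by_cases hn : n ≤ 1
    · exact ⟨0, fun y hy v _ => (hy.mono hn).secv le_rfl v⟩
    · obtain ⟨j0, hj⟩ := ih (n / 32 + 1) (by omega)
      refine ⟨j0 + 1, fun y hy v hv => ?_⟩
      cases v with
      | nil => simp at hv
      | cons x v => exact hj _ (hy.sec x) v (by simpa using hv)

lemma act_mul_of {g h : W X} {v : List X} (hg : g.act v = v) (hh : h.act v = v) :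
    (g * h).act v = v := by
  rw [act_mul, hh, hg]

lemma act_inv_of {g : W X} {v : List X} (hg : g.act v = v) : (g⁻¹).act v = v := by
  conv_lhs => rw [← hg]
  exact act_inv_act g v

lemma secv_mul_of {g h : W X} {v : List X} (hh : h.act v = v) :
    (g * h).secv v = g.secv v * h.secv v := by
  rw [secv_mul, hh]

lemma secv_inv_of {g : W X} {v : List X} (hg : g.act v = v) : (g⁻¹).secv v = (g.secv v)⁻¹ := by
  conv_lhs => rw [← hg]
  rw [secv_inv]

lemma cs_act {g h : W X} {v : List X} (hg : g.act v = v) (hh : h.act v = v) :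
    (cs g h).act v = v := by
  unfold cs
  rw [commutatorElement_def]
  exact act_mul_of (act_mul_of (act_mul_of (act_mul_of hg hg) (act_mul_of hh hh))
    (act_inv_of (act_mul_of hg hg))) (act_inv_of (act_mul_of hh hh))

lemma cs_secv {g h : W X} {v : List X} (hg : g.act v = v) (hh : h.act v = v) :
    (cs g h).secv v = cs (g.secv v) (h.secv v) := by
  have hg2 := act_mul_of hg hg
  have hh2 := act_mul_of hh hh
  unfold cs
  rw [commutatorElement_def, commutatorElement_def, secv_mul_of (act_inv_of hh2),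
    secv_mul_of (act_inv_of hg2), secv_mul_of hh2, secv_inv_of hh2, secv_inv_of hg2,
    secv_mul_of hg, secv_mul_of hh]

/-- the iteration -/
def es (x y : W X) : ℕ → W X
  | 0 => x
  | k + 1 => cs (es x y k) (y * es x y k * y⁻¹)

section

variable {x y : W X} (hx : x ∈ K) (hy : y ∈ K)

include hx hy in
lemma es_mem (j : ℕ) : es x y j ∈ K := by
  induction j with
  | zero => exact hx
  | succ j ih => exact cs_mem ih (K.mul_mem (K.mul_mem hy ih) (K.inv_mem hy))

lemma conj_act {g : W X} {j : ℕ} (hg : ∀ v : List X, v.length = j → g.act v = v)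
    (v : List X) (hv : v.length = j) : (y * g * y⁻¹).act v = v := by
  rw [act_mul, act_mul, hg _ (by rw [act_length, hv]), act_act_inv]

lemma conj_secv {g : W X} {j : ℕ} (hg : ∀ v : List X, v.length = j → g.act v = v)
    (v : List X) (hv : v.length = j) : (y * g * y⁻¹).secv v =
      y.secv (y⁻¹.act v) * g.secv (y⁻¹.act v) * (y.secv (y⁻¹.act v))⁻¹ := by
  rw [secv_mul, secv_mul, hg _ (by rw [act_length, hv])]
  congr 1
  have := secv_inv y (y⁻¹.act v)
  rwa [act_act_inv] at this

include hx hy in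
lemma es_act (j : ℕ) : ∀ v : List X, v.length = j → (es x y j).act v = v := by
  induction j with
  | zero =>
    intro v hv
    rw [List.length_eq_zero_iff.mp hv]
    rfl
  | succ j ih =>
    intro v hv
    obtain ⟨u, z, rfl⟩ : ∃ u z, v = u ++ [z] := by
      have : v ≠ [] := by
        rintro rfl
        simp at hv
      exact ⟨v.dropLast, v.getLast this, (List.dropLast_append_getLast this).symm⟩
    have hu : u.length = j := by simpa using hv
    have h1 := ih u hu
    have h2 := conj_act (y := y) ih u hu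
    rw [act_concat]
    show (cs (es x y j) (y * es x y j * y⁻¹)).act u ++
      [((cs (es x y j) (y * es x y j * y⁻¹)).secv u).rt z] = _
    rw [cs_act h1 h2, cs_secv h1 h2, cs_rt, Perm.one_apply]
    · exact secv_mem (es_mem hx hy j) u
    · exact secv_mem (K.mul_mem (K.mul_mem hy (es_mem hx hy j)) (K.inv_mem hy)) u

include hx hy in
lemma es_secv (j : ℕ) (v : List X) (hv : v.length = j) : (es x y (j + 1)).secv v =
    cs ((es x y j).secv v) (y.secv (y⁻¹.act v) * (es x y j).secv (y⁻¹.act v) *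
      (y.secv (y⁻¹.act v))⁻¹) := by
  have ih := es_act hx hy j
  have h1 := ih v hv
  have h2 := conj_act (y := y) ih v hv
  show (cs (es x y j) (y * es x y j * y⁻¹)).secv v = _
  rw [cs_secv h1 h2, conj_secv ih v hv]

lemma Ln_cs {m n : ℕ} {g h : W X} (hg : Ln m g) (hh : Ln n h) : Ln (4 * m + 4 * n) (cs g h) := by
  have h1 := hg.mul hg
  have h2 := hh.mul hh
  have := ((h1.mul h2).mul h1.inv).mul h2.inv
  exact this.mono (by omega)

include hx hy in
lemma eventually (j0 : ℕ) (hj0 : ∀ v : List X, j0 ≤ v.length → Ln 1 (y.secv v)) (E : ℕ) :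
    ∀ j, j0 ≤ j → (∀ v : List X, v.length = j → Ln E ((es x y j).secv v)) →
      ∃ m, es x y m = 1 := by
  induction E using Nat.strong_induction_on with
  | _ E ih =>
    intro j hj hE
    by_cases h1 : E ≤ 1
    · refine ⟨j + 1, ?_⟩
      apply eq_one_of j
      · intro v hv
        have h2 := es_act hx hy (j + 1) (v ++ [0]) (by simp [hv])
        rw [act_concat] at h2
        exact (List.append_inj' h2 rfl).1
      · intro v hv
        rw [es_secv hx hy j v hv]
        have h2 : (es x y j).secv v * (es x y j).secv v = 1 := ((hE v hv).mono h1).sq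
        unfold cs
        rw [h2, commutatorElement_one_left]
    · refine ih ((8 * E + 8) / 32 + 1) (by omega) (j + 1) (by omega) ?_
      intro v hv
      obtain ⟨u, z, rfl⟩ : ∃ u z, v = u ++ [z] := by
        have : v ≠ [] := by
          rintro rfl
          simp at hv
        exact ⟨v.dropLast, v.getLast this, (List.dropLast_append_getLast this).symm⟩
      have hu : u.length = j := by simpa using hv
      rw [secv_concat, es_secv hx hy j u hu]
      have hu' : (y⁻¹.act u).length = j := by rw [act_length, hu]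
      have h3 := hj0 (y⁻¹.act u) (by rw [hu']; exact hj)
      have h4 := (h3.mul (hE _ hu')).mul h3.inv
      have h5 := Ln_cs (hE u hu) h4
      exact (h5.mono (by omega : 4 * E + 4 * (1 + E + 1) ≤ 8 * E + 8)).sec z

include hx hy in
theorem iterated : ∃ m, es x y m = 1 := by
  obtain ⟨n, hn⟩ := exists_Ln hy
  obtain ⟨j0, hj0⟩ := exists_depth n
  obtain ⟨E, hE⟩ := exists_Ln (es_mem hx hy j0)
  exact eventually hx hy j0 (fun v hv => hj0 y hn v hv) (E + 1) j0 le_rfl
    fun v _ => (hE.mono (by omega)).secv (by omega) v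

end

end Pool.Agent.R632.Eng
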