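import Pool.Agent.R632.Eng.Port

/-! A group of Grigorchuk type with a long dihedral first level. -/

set_option linter.unusedSectionVars false

namespace Pool.Agent.R632.Eng

open Equiv W

/-- the alphabet -/
abbrev X := ZMod 64

/-- the reflection `x ↦ -x` or the identity -/
def bp (i : ZMod 2) : Perm X := if i = 0 then 1 else Equiv.neg X

lemma two_cases (i : ZMod 2) : i = 0 ∨ i = 1 := by
  revert i; decide

lemma bp_zero : bp 0 = 1 := rfl

lemma bp_one (x : X) : bp 1 x = -x := rfl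

lemma bp_mul (i j : ZMod 2) : bp i * bp j = bp (i + j) := by
  rcases two_cases i with rfl | rfl
  · rw [bp_zero, one_mul, zero_add]
  rcases two_cases j with rfl | rfl
  · rw [bp_zero, mul_one, add_zero]
  · rw [show (1 : ZMod 2) + 1 = 0 from rfl, bp_zero]
    ext x
    rw [Perm.mul_apply, bp_one, bp_one, neg_neg, Perm.one_apply]

lemma neg32 : (-32 : X) = 32 := rfl

lemma bp_zero' (i : ZMod 2) : bp i 0 = 0 := by
  rcases two_cases i with rfl | rfl
  · rfl
  · rw [bp_one, neg_zero]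

lemma bp_32 (i : ZMod 2) : bp i 32 = 32 := by
  rcases two_cases i with rfl | rfl
  · rfl
  · rw [bp_one, neg32]

/-- the rooted generator -/
def a : W X := ⟨fun w => match w with
  | [] => Equiv.subLeft 1
  | _ :: _ => 1⟩

lemma a_rt (x : X) : a.rt x = 1 - x := rfl

lemma a_sec (x : X) : a.sec x = 1 := rfl

lemma a_mul : a * a = 1 := by
  apply ext'
  · ext x
    rw [mul_rt, Perm.mul_apply, a_rt, a_rt, one_rt, Perm.one_apply, sub_sub_cancel]
  · intro x
    rw [sec_mul, a_sec, a_sec, one_mul, sec_one]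

/-- powers of `a` -/
def ap (i : ZMod 2) : W X := if i = 0 then 1 else a

lemma ap_zero : ap 0 = 1 := rfl

lemma ap_one : ap 1 = a := rfl

lemma ap_mul (i j : ZMod 2) : ap i * ap j = ap (i + j) := by
  rcases two_cases i with rfl | rfl
  · rw [ap_zero, one_mul, zero_add]
  rcases two_cases j with rfl | rfl
  · rw [ap_zero, mul_one, add_zero]
  · rw [show (1 : ZMod 2) + 1 = 0 from rfl, ap_zero, ap_one, a_mul]

/-- labels of the directed elements -/
def BL : ZMod 2 → ZMod 2 → List X → Perm X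
  | i, _, [] => bp i
  | i, j, x :: w => if x = 0 then (ap i).l w else if x = 32 then BL j i w else 1

/-- the directed elements -/
def B (i j : ZMod 2) : W X := ⟨BL i j⟩

lemma B_rt (i j : ZMod 2) : (B i j).rt = bp i := rfl

lemma B_sec0 (i j : ZMod 2) : (B i j).sec 0 = ap i := rfl

lemma B_sec32 (i j : ZMod 2) : (B i j).sec 32 = B j i := rfl

lemma B_sec_ne (i j : ZMod 2) {x : X} (h0 : x ≠ 0) (h32 : x ≠ 32) : (B i j).sec x = 1 := by
  ext1
  funext w
  show (if x = 0 then (ap i).l w else if x = 32 then BL j i w else 1) = _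
  rw [if_neg h0, if_neg h32]
  rfl

lemma bp_ne {i : ZMod 2} {x y : X} (h : bp i y = y) (hx : x ≠ y) : bp i x ≠ y := by
  intro h1
  apply hx
  rw [← h] at h1
  exact (bp i).injective h1

lemma B_mul (i j i' j' : ZMod 2) : B i j * B i' j' = B (i + i') (j + j') := by
  ext1
  funext w
  induction w generalizing i j i' j' with
  | nil => exact bp_mul i i'
  | cons x w ih =>
    show ((B i j).sec ((B i' j').rt x) * (B i' j').sec x).l w = ((B (i + i') (j + j')).sec x).l w
    rw [B_rt]
    by_cases h0 : x = 0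
    · subst h0
      rw [bp_zero', B_sec0, B_sec0, B_sec0, ap_mul]
    by_cases h32 : x = 32
    · subst h32
      rw [bp_32, B_sec32, B_sec32, B_sec32, ih]
    rw [B_sec_ne _ _ h0 h32, B_sec_ne _ _ h0 h32, B_sec_ne _ _ (bp_ne (bp_zero' _) h0)
      (bp_ne (bp_32 _) h32), one_mul]

lemma B_zero : B 0 0 = 1 := by
  have := B_mul 0 0 0 0
  rw [add_zero] at this
  exact mul_eq_left.mp this

lemma B_sq (i j : ZMod 2) : B i j * B i j = 1 := by
  have : ∀ i : ZMod 2, i + i = 0 := by decide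
  rw [B_mul, this, this, B_zero]

/-- `d = B 0 1` is `c = B 1 0` placed at the letter `32` -/
lemma B01 : B 0 1 = at1 32 (B 1 0) := by
  apply eq_at1
  · rw [B_rt, bp_zero]
  · rw [B_sec32]
  · intro y hy
    by_cases h0 : y = 0
    · subst h0
      rw [B_sec0, ap_zero]
    · exact B_sec_ne _ _ h0 hy

/-- the group -/
def K : Subgroup (W X) := Subgroup.closure ({a} ∪ Set.range fun p : ZMod 2 × ZMod 2 => B p.1 p.2)

lemma a_mem : a ∈ K := Subgroup.subset_closure (Or.inl rfl)

lemma B_mem (i j : ZMod 2) : B i j ∈ K := Subgroup.subset_closure (Or.inr ⟨(i, j), rfl⟩)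

lemma ap_mem (i : ZMod 2) : ap i ∈ K := by
  rcases two_cases i with rfl | rfl
  · exact K.one_mem
  · exact a_mem

lemma K_fg : K.FG := by
  rw [Subgroup.fg_iff]
  exact ⟨_, rfl, (Set.finite_singleton _).union (Set.finite_range _)⟩

lemma K_ind {P : W X → Prop} (ha : P a) (hB : ∀ i j, P (B i j)) (h1 : P 1)
    (hm : ∀ g h, P g → P h → P (g * h)) (hi : ∀ g, P g → P g⁻¹) : ∀ g ∈ K, P g := by
  intro g hg
  induction hg using Subgroup.closure_induction with
  | mem g hg =>
    rcases hg with rfl | ⟨p, rfl⟩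
    · exact ha
    · exact hB _ _
  | one => exact h1
  | mul g h _ _ hg hh => exact hm _ _ hg hh
  | inv g _ hg => exact hi _ hg

lemma sec_mem {g : W X} (hg : g ∈ K) (x : X) : g.sec x ∈ K := by
  refine K_ind (P := fun g => ∀ x, g.sec x ∈ K) ?_ ?_ ?_ ?_ ?_ g hg x
  · intro x
    rw [a_sec]
    exact K.one_mem
  · intro i j x
    by_cases h0 : x = 0
    · subst h0
      rw [B_sec0]
      exact ap_mem i
    by_cases h32 : x = 32
    · subst h32
      rw [B_sec32]
      exact B_mem _ _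
    · rw [B_sec_ne _ _ h0 h32]
      exact K.one_mem
  · intro x
    rw [sec_one]
    exact K.one_mem
  · intro g h hg hh x
    rw [sec_mul]
    exact K.mul_mem (hg _) (hh _)
  · intro g hg x
    rw [sec_inv']
    exact K.inv_mem (hg _)

lemma secv_mem {g : W X} (hg : g ∈ K) (v : List X) : g.secv v ∈ K := by
  induction v generalizing g with
  | nil => exact hg
  | cons x v ih => exact ih (sec_mem hg x)

/-- root labels are translations or reflections -/
lemma rt_form {g : W X} (hg : g ∈ K) : ∃ t : X, (∀ x, g.rt x = x + t) ∨ ∀ x, g.rt x = t - x := by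
  refine K_ind (P := fun g => ∃ t : X, (∀ x, g.rt x = x + t) ∨ ∀ x, g.rt x = t - x)
    ?_ ?_ ?_ ?_ ?_ g hg
  · exact ⟨1, Or.inr a_rt⟩
  · intro i j
    rcases two_cases i with rfl | rfl
    · exact ⟨0, Or.inl fun x => by rw [B_rt, bp_zero, Perm.one_apply, add_zero]⟩
    · exact ⟨0, Or.inr fun x => by rw [B_rt, bp_one, zero_sub]⟩
  · exact ⟨0, Or.inl fun x => by rw [one_rt, Perm.one_apply, add_zero]⟩
  · rintro g h ⟨s, hg⟩ ⟨t, hh⟩
    rcases hg with hg | hg <;> rcases hh with hh | hh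
    · exact ⟨t + s, Or.inl fun x => by rw [mul_rt, Perm.mul_apply, hh, hg]; ring⟩
    · exact ⟨t + s, Or.inr fun x => by rw [mul_rt, Perm.mul_apply, hh, hg]; ring⟩
    · exact ⟨s - t, Or.inr fun x => by rw [mul_rt, Perm.mul_apply, hh, hg]; ring⟩
    · exact ⟨s - t, Or.inl fun x => by rw [mul_rt, Perm.mul_apply, hh, hg]; ring⟩
  · rintro g ⟨t, hg⟩
    rcases hg with hg | hg
    · refine ⟨-t, Or.inl fun x => ?_⟩
      apply g.rt.injective
      rw [inv_rt, perm_inv, hg]
      ring
    · refine ⟨t, Or.inr fun x => ?_⟩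
      apply g.rt.injective
      rw [inv_rt, perm_inv, hg]
      ring

/-- squares of elements of the group have commuting root labels, which are translations -/
lemma rt_sq {g : W X} (hg : g ∈ K) : ∃ t : X, ∀ x, (g * g).rt x = x + t := by
  obtain ⟨t, h | h⟩ := rt_form hg
  · exact ⟨t + t, fun x => by rw [mul_rt, Perm.mul_apply, h, h]; ring⟩
  · exact ⟨0, fun x => by rw [mul_rt, Perm.mul_apply, h, h]; ring⟩

open scoped commutatorElement

/-- the basic expression `[g², h²]` -/
def cs (g h : W X) : W X := ⁅g * g, h * h⁆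

lemma cs_rt {g h : W X} (hg : g ∈ K) (hh : h ∈ K) : (cs g h).rt = 1 := by
  obtain ⟨s, hs⟩ := rt_sq hg
  obtain ⟨t, ht⟩ := rt_sq hh
  have : (g * g).rt * (h * h).rt = (h * h).rt * (g * g).rt := by
    ext x
    rw [Perm.mul_apply, Perm.mul_apply, hs, ht, ht, hs]
    ring
  unfold cs
  rw [commutatorElement_def, mul_rt, mul_rt, mul_rt, this, inv_rt, inv_rt]
  group

lemma cs_mem {g h : W X} (hg : g ∈ K) (hh : h ∈ K) : cs g h ∈ K := by
  have h1 := K.mul_mem hg hg
  have h2 := K.mul_mem hh hh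
  exact K.mul_mem (K.mul_mem (K.mul_mem h1 h2) (K.inv_mem h1)) (K.inv_mem h2)

/-- the translation by one -/
def tt : W X := a * B 1 1

lemma tt_mem : tt ∈ K := K.mul_mem a_mem (B_mem _ _)

lemma tt_rt (x : X) : tt.rt x = x + 1 := by
  unfold tt
  rw [mul_rt, Perm.mul_apply, B_rt, bp_one, a_rt]
  ring

lemma tt_sec (x : X) : tt.sec x = (B 1 1).sec x := by
  unfold tt
  rw [sec_mul, a_sec, one_mul]

lemma tt_pow_rt (n : ℕ) (x : X) : (tt ^ n).rt x = x + n := by
  induction n generalizing x with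
  | zero => rw [pow_zero, one_rt, Perm.one_apply, Nat.cast_zero, add_zero]
  | succ n ih =>
    rw [pow_succ, mul_rt, Perm.mul_apply, ih, tt_rt]
    push_cast
    ring

lemma tt_pow_sec_succ (n : ℕ) (x : X) :
    (tt ^ (n + 1)).sec x = (B 1 1).sec (x + n) * (tt ^ n).sec x := by
  rw [pow_succ', sec_mul, tt_pow_rt, tt_sec]

lemma cast_ne_zero' {n : ℕ} (h : 0 < n) (h' : n < 64) : (n : X) ≠ 0 := by
  intro h1
  rw [ZMod.natCast_eq_zero_iff] at h1
  omega

lemma cast_ne_32 {n : ℕ} (h : n ≠ 32) (h' : n < 64) : (n : X) ≠ 32 := by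
  intro h1
  have h2 : ((n : ℕ) : ZMod 64) = ((32 : ℕ) : ZMod 64) := by
    rw [h1]
    rfl
  rw [ZMod.natCast_eq_natCast_iff'] at h2
  omega

/-- the section of `tt ^ 32` at `32` -/
lemma tt_sec32 (n : ℕ) (h : n < 32) : (tt ^ (n + 1)).sec 32 = B 1 1 := by
  induction n with
  | zero => rw [zero_add, pow_one, tt_sec, B_sec32]
  | succ n ih =>
    have h0 : (32 : X) + ((n + 1 : ℕ) : X) = ((32 + (n + 1) : ℕ) : X) := by
      push_cast
      ring
    rw [tt_pow_sec_succ, ih (by omega), h0, B_sec_ne, one_mul]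
    · exact cast_ne_zero' (by omega) (by omega)
    · exact cast_ne_32 (by omega) (by omega)

lemma tt_sec0 (n : ℕ) (h : n < 32) : (tt ^ (n + 1)).sec 0 = a := by
  induction n with
  | zero => rw [zero_add, pow_one, tt_sec, B_sec0, ap_one]
  | succ n ih =>
    rw [tt_pow_sec_succ, ih (by omega), zero_add, B_sec_ne, one_mul]
    · exact cast_ne_zero' (by omega) (by omega)
    · exact cast_ne_32 (by omega) (by omega)

lemma tt_sec64 : (tt ^ 64).sec 0 = B 1 1 * a := by
  have h1 : (tt ^ 64 : W X) = tt ^ (31 + 1) * tt ^ (31 + 1) := by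
    rw [← pow_add]
  rw [h1, sec_mul, tt_sec0 31 (by omega), tt_pow_rt, zero_add]
  have h2 : (((31 + 1 : ℕ)) : X) = 32 := rfl
  rw [h2, tt_sec32 31 (by omega)]

lemma tt_inv : (tt : W X)⁻¹ = B 1 1 * a := by
  rw [inv_eq_iff_mul_eq_one]
  unfold tt
  rw [mul_assoc, ← mul_assoc (B 1 1), B_sq, one_mul, a_mul]

/-- `tt` has infinite order -/
lemma tt_infinite (n : ℕ) (hn : 0 < n) : (tt : W X) ^ n ≠ 1 := by
  induction n using Nat.strong_induction_on with
  | _ n ih =>
    intro h
    have h1 : ((n : ℕ) : X) = 0 := by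
      have := tt_pow_rt n 0
      rw [h, one_rt, Perm.one_apply, zero_add] at this
      exact this.symm
    rw [ZMod.natCast_eq_zero_iff] at h1
    obtain ⟨k, rfl⟩ := h1
    have h2 : ∀ k : ℕ, ((tt ^ 64) ^ k).sec 0 = (tt⁻¹) ^ k := by
      intro k
      induction k with
      | zero => rw [pow_zero, pow_zero, sec_one]
      | succ k ihk =>
        rw [pow_succ, sec_mul, tt_pow_rt, zero_add]
        have h3 : (((64 : ℕ)) : X) = 0 := rfl
        rw [h3, ihk, tt_sec64, ← tt_inv, pow_succ]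
    have h3 := h2 k
    rw [← pow_mul, h, sec_one] at h3
    apply ih k (by omega) (by omega)
    rw [inv_pow] at h3
    exact (inv_eq_one.mp h3.symm)

/-- elements of the group can be lifted to the letter `32` -/
lemma lift {h : W X} (hh : h ∈ K) : ∃ k ∈ K, k.rt 32 = 32 ∧ k.sec 32 = h := by
  let L : Subgroup (W X) :=
    { carrier := {h | ∃ k ∈ K, k.rt 32 = 32 ∧ k.sec 32 = h}
      mul_mem' := by
        rintro _ _ ⟨k, hk, h0, rfl⟩ ⟨k', hk', h0', rfl⟩
        refine ⟨k * k', K.mul_mem hk hk', ?_, ?_⟩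
        · rw [mul_rt, Perm.mul_apply, h0', h0]
        · rw [sec_mul, h0']
      one_mem' := ⟨1, K.one_mem, rfl, rfl⟩
      inv_mem' := by
        rintro _ ⟨k, hk, h0, rfl⟩
        have h1 : (k⁻¹).rt 32 = 32 := by
          apply k.rt.injective
          rw [inv_rt, perm_inv, h0]
        refine ⟨k⁻¹, K.inv_mem hk, h1, ?_⟩
        have := sec_inv k 32
        rwa [h0] at this }
  have hB : ∀ i j, B i j ∈ L := fun i j => ⟨B j i, B_mem _ _, bp_32 _, B_sec32 _ _⟩
  have ha : a ∈ L := by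
    have h1 : (tt ^ (31 + 1)).rt 32 = 0 := by
      rw [tt_pow_rt]
      rfl
    have h2 : (B 1 1)⁻¹ * a * B 1 1 ∈ L := by
      refine ⟨(tt ^ (31 + 1))⁻¹ * B 1 1 * tt ^ (31 + 1), ?_, ?_, ?_⟩
      · exact K.mul_mem (K.mul_mem (K.inv_mem (K.pow_mem tt_mem _)) (B_mem _ _))
          (K.pow_mem tt_mem _)
      · rw [mul_rt, mul_rt, Perm.mul_apply, Perm.mul_apply, h1, B_rt, bp_zero', ← h1, inv_rt,
          inv_perm]
      · rw [sec_mul, sec_mul, h1, B_rt, bp_zero', B_sec0, ap_one, tt_sec32 31 (by omega)]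
        have h3 := sec_inv (tt ^ (31 + 1)) 32
        rw [h1, tt_sec32 31 (by omega)] at h3
        rw [h3]
    have h3 : a = B 1 1 * ((B 1 1)⁻¹ * a * B 1 1) * (B 1 1)⁻¹ := by group
    rw [h3]
    exact L.mul_mem (L.mul_mem (hB _ _) h2) (L.inv_mem (hB _ _))
  exact K_ind (P := fun g => g ∈ L) ha hB L.one_mem (fun _ _ => L.mul_mem)
    (fun _ => L.inv_mem) h hh

lemma exists_trans (x y : X) : ∃ k ∈ K, k.rt x = y := by
  refine ⟨tt ^ (y - x).val, K.pow_mem tt_mem _, ?_⟩
  rw [tt_pow_rt, ZMod.natCast_zmod_val]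
  ring

lemma to_base (v : List X) : ∃ k ∈ K, k.act v = List.replicate v.length 32 := by
  induction v with
  | nil => exact ⟨1, K.one_mem, rfl⟩
  | cons x v ih' =>
    have ih : ∀ n : ℕ, ∀ v : List X, v.length = n → ∃ k ∈ K, k.act v = List.replicate n 32 := by
      intro n
      induction n with
      | zero =>
        intro v hv
        exact ⟨1, K.one_mem, by rw [List.length_eq_zero_iff.mp hv]; rfl⟩
      | succ n ih =>
        intro v hv
        cases v with
        | nil => simp at hv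
        | cons x v =>
          obtain ⟨t, ht, htx⟩ := exists_trans x 32
          obtain ⟨k, hk, hkv⟩ := ih ((t.sec x).act v) (by rw [act_length]; simpa using hv)
          obtain ⟨k', hk', h0, h1⟩ := lift hk
          refine ⟨k' * t, K.mul_mem hk' ht, ?_⟩
          rw [act_mul, act, htx, act, h0, h1, hkv, List.replicate_succ]
    exact ih _ _ rfl

lemma transitive (v w : List X) (h : v.length = w.length) : ∃ k ∈ K, k.act v = w := by
  obtain ⟨k, hk, hkv⟩ := to_base v
  obtain ⟨k', hk', hkw⟩ := to_base w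
  refine ⟨k'⁻¹ * k, K.mul_mem (K.inv_mem hk') hk, ?_⟩
  rw [act_mul, hkv, h, ← hkw, act_inv_act]

end Pool.Agent.R632.Eng
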