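import Mathlib

/-! Portraits of automorphisms of the rooted tree of words over `X`, with labels in the group of
permutations of `X`. -/

set_option linter.unusedSectionVars false

namespace Pool.Agent.R632.Eng

open Equiv

lemma perm_inv {X : Type} (g : Perm X) (x : X) : g (g⁻¹ x) = x := g.apply_symm_apply x

lemma inv_perm {X : Type} (g : Perm X) (x : X) : g⁻¹ (g x) = x := g.symm_apply_apply x

variable (X : Type)

/-- Portraits: a permutation of `X` for each vertex. -/
@[ext] structure W where
  /-- the label -/
  l : List X → Perm X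

variable {X}

namespace W

/-- section at a letter -/
def sec (g : W X) (x : X) : W X := ⟨fun w => g.l (x :: w)⟩

/-- the root label -/
def rt (g : W X) : Perm X := g.l []

/-- action on words -/
def act : W X → List X → List X
  | _, [] => []
  | g, x :: w => g.rt x :: act (g.sec x) w

/-- inverse action on words -/
def actInv : W X → List X → List X
  | _, [] => []
  | g, y :: w => (g.rt⁻¹ y) :: actInv (g.sec (g.rt⁻¹ y)) w

lemma act_actInv (g : W X) (w : List X) : g.act (g.actInv w) = w := by
  induction w generalizing g with
  | nil => rfl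
  | cons x w ih =>
    simp only [act, actInv, ih, perm_inv]

lemma actInv_act (g : W X) (w : List X) : g.actInv (g.act w) = w := by
  induction w generalizing g with
  | nil => rfl
  | cons x w ih =>
    simp only [act, actInv, inv_perm, ih]

instance : Mul (W X) := ⟨fun g h => ⟨fun w => g.l (h.act w) * h.l w⟩⟩

instance : One (W X) := ⟨⟨fun _ => 1⟩⟩

instance : Inv (W X) := ⟨fun g => ⟨fun w => (g.l (g.actInv w))⁻¹⟩⟩

lemma mul_l (g h : W X) (w : List X) : (g * h).l w = g.l (h.act w) * h.l w := rfl

lemma one_l (w : List X) : (1 : W X).l w = 1 := rfl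

lemma inv_l (g : W X) (w : List X) : (g⁻¹).l w = (g.l (g.actInv w))⁻¹ := rfl

lemma mul_rt (g h : W X) : (g * h).rt = g.rt * h.rt := rfl

lemma one_rt : (1 : W X).rt = 1 := rfl

lemma inv_rt (g : W X) : (g⁻¹).rt = g.rt⁻¹ := rfl

lemma sec_mul (g h : W X) (x : X) : (g * h).sec x = g.sec (h.rt x) * h.sec x := rfl

lemma sec_one (x : X) : (1 : W X).sec x = 1 := rfl

lemma act_mul (g h : W X) (w : List X) : (g * h).act w = g.act (h.act w) := by
  induction w generalizing g h with
  | nil => rfl
  | cons x w ih => simp only [act, mul_rt, sec_mul, ih, Perm.mul_apply]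

lemma act_one (w : List X) : (1 : W X).act w = w := by
  induction w with
  | nil => rfl
  | cons x w ih => simp only [act, one_rt, sec_one, ih, Perm.one_apply]

lemma act_length (g : W X) (w : List X) : (g.act w).length = w.length := by
  induction w generalizing g with
  | nil => rfl
  | cons x w ih => simp [act, ih]

instance : Group (W X) where
  mul_assoc g h k := by
    ext1
    funext w
    simp only [mul_l, act_mul, mul_assoc]
  one_mul g := by
    ext1
    funext w
    simp only [mul_l, one_l, one_mul]
  mul_one g := by
    ext1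
    funext w
    simp only [mul_l, one_l, act_one, mul_one]
  inv_mul_cancel g := by
    ext1
    funext w
    simp only [mul_l, inv_l, actInv_act, inv_mul_cancel, one_l]

lemma act_inv_act (g : W X) (w : List X) : (g⁻¹).act (g.act w) = w := by
  rw [← act_mul, inv_mul_cancel, act_one]

lemma act_act_inv (g : W X) (w : List X) : g.act (g⁻¹.act w) = w := by
  rw [← act_mul, mul_inv_cancel, act_one]

lemma ext' {g h : W X} (h0 : g.rt = h.rt) (h1 : ∀ x, g.sec x = h.sec x) : g = h := by
  ext1
  funext w
  cases w with
  | nil => exact h0
  | cons x w => exact congrFun (congrArg W.l (h1 x)) w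

lemma act_injective : Function.Injective (act : W X → List X → List X) := by
  intro g h hgh
  ext1
  funext w
  induction w generalizing g h with
  | nil =>
    ext x
    have := congrFun hgh [x]
    simpa [act, rt] using this
  | cons x w ih =>
    have h2 : (g.sec x).act = (h.sec x).act := by
      funext v
      have := congrFun hgh (x :: v)
      simp only [act, List.cons.injEq] at this
      exact this.2
    exact ih h2

/-- the permutation of the vertices -/
def toPerm : W X →* Perm (List X) where
  toFun g :=
    { toFun := g.act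
      invFun := g⁻¹.act
      left_inv := act_inv_act g
      right_inv := act_act_inv g }
  map_one' := Equiv.ext act_one
  map_mul' g h := Equiv.ext (act_mul g h)

lemma toPerm_apply (g : W X) (w : List X) : toPerm g w = g.act w := rfl

lemma toPerm_injective : Function.Injective (toPerm : W X →* Perm (List X)) := by
  intro g h hgh
  apply act_injective
  funext w
  exact congrArg (fun e : Perm (List X) => e w) hgh

lemma act_append (g : W X) (v w : List X) : ∃ u, g.act (v ++ w) = g.act v ++ u := by
  induction v generalizing g with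
  | nil => exact ⟨_, rfl⟩
  | cons x v ih =>
    obtain ⟨u, hu⟩ := ih (g.sec x)
    exact ⟨u, by simp [act, hu]⟩

lemma act_prefix (g : W X) {v w : List X} (h : v <+: w) : g.act v <+: g.act w := by
  obtain ⟨t, rfl⟩ := h
  obtain ⟨u, hu⟩ := g.act_append v t
  rw [hu]
  exact List.prefix_append _ _

/-- iterated section -/
def secv : W X → List X → W X
  | g, [] => g
  | g, x :: v => secv (g.sec x) v

lemma secv_nil (g : W X) : g.secv [] = g := rfl

lemma secv_cons (g : W X) (x : X) (v : List X) : g.secv (x :: v) = (g.sec x).secv v := rfl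

lemma secv_concat (g : W X) (v : List X) (x : X) : g.secv (v ++ [x]) = (g.secv v).sec x := by
  induction v generalizing g with
  | nil => rfl
  | cons y v ih => exact ih _

lemma act_concat (g : W X) (v : List X) (x : X) :
    g.act (v ++ [x]) = g.act v ++ [(g.secv v).rt x] := by
  induction v generalizing g with
  | nil => rfl
  | cons y v ih =>
    rw [List.cons_append, act, ih]
    rfl

lemma secv_mul (g h : W X) (v : List X) : (g * h).secv v = g.secv (h.act v) * h.secv v := by
  induction v generalizing g h with
  | nil => rfl
  | cons x v ih => simp only [secv, act, sec_mul, ih]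

lemma secv_one (v : List X) : (1 : W X).secv v = 1 := by
  induction v with
  | nil => rfl
  | cons x v ih => rw [secv_cons, sec_one, ih]

lemma secv_inv (g : W X) (v : List X) : (g⁻¹).secv (g.act v) = (g.secv v)⁻¹ := by
  rw [eq_inv_iff_mul_eq_one, ← secv_mul, inv_mul_cancel, secv_one]

lemma sec_inv (g : W X) (x : X) : (g⁻¹).sec (g.rt x) = (g.sec x)⁻¹ := by
  rw [eq_inv_iff_mul_eq_one, ← sec_mul, inv_mul_cancel, sec_one]

lemma sec_inv' (g : W X) (x : X) : (g⁻¹).sec x = (g.sec (g.rt⁻¹ x))⁻¹ := by
  rw [← sec_inv, perm_inv]

/-- an element which fixes level `n` and has trivial sections there is trivial -/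
lemma eq_one_of (n : ℕ) {g : W X} (h : ∀ v : List X, v.length = n → g.act v = v)
    (h1 : ∀ v : List X, v.length = n → g.secv v = 1) : g = 1 := by
  induction n generalizing g with
  | zero => exact h1 [] rfl
  | succ n ih =>
    have key : ∀ (x : X) (v : List X), v.length = n → g.rt x = x ∧ (g.sec x).act v = v := by
      intro x v hv
      have := h (x :: v) (by simp [hv])
      simpa [act] using this
    apply ext'
    · ext x
      rw [one_rt, Perm.one_apply]
      exact (key x (List.replicate n x) (by simp)).1
    · intro x
      rw [sec_one]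
      apply ih
      · intro v hv
        exact (key x v hv).2
      · intro v hv
        exact h1 (x :: v) (by simp [hv])

/-- the element with trivial root label and given sections -/
def node : (X → W X) →* W X where
  toFun f := ⟨fun w => match w with
    | [] => 1
    | x :: w => (f x).l w⟩
  map_one' := by
    apply ext'
    · rfl
    · intro x; rfl
  map_mul' f g := by
    apply ext'
    · rw [mul_rt]
      show (1 : Perm X) = 1 * 1
      rw [one_mul]
    · intro x
      rw [sec_mul]
      rfl

lemma node_rt (f : X → W X) : (node f).rt = 1 := rfl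

lemma node_sec (f : X → W X) (x : X) : (node f).sec x = f x := rfl

lemma node_sec_eq {g : W X} (h : g.rt = 1) : node g.sec = g := by
  apply ext'
  · rw [node_rt, h]
  · intro x; rfl

variable [DecidableEq X]

/-- the element `g` placed at the letter `x` -/
def at1 (x : X) : W X →* W X := node.comp (MonoidHom.mulSingle (fun _ : X => W X) x)

lemma at1_apply (x : X) (g : W X) : at1 x g = node (Pi.mulSingle x g) := rfl

lemma at1_rt (x : X) (g : W X) : (at1 x g).rt = 1 := rfl

lemma at1_sec_self (x : X) (g : W X) : (at1 x g).sec x = g := by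
  rw [at1_apply, node_sec, Pi.mulSingle_eq_same]

lemma at1_sec_ne {x y : X} (h : y ≠ x) (g : W X) : (at1 x g).sec y = 1 := by
  rw [at1_apply, node_sec, Pi.mulSingle_eq_of_ne h]

lemma eq_at1 {g h : W X} {x : X} (h0 : g.rt = 1) (h1 : g.sec x = h)
    (h2 : ∀ y, y ≠ x → g.sec y = 1) : g = at1 x h := by
  apply ext'
  · rw [h0, at1_rt]
  · intro y
    by_cases hy : y = x
    · subst hy
      rw [h1, at1_sec_self]
    · rw [h2 y hy, at1_sec_ne hy]

lemma conj_at1 (m g : W X) (x : X) :
    m * at1 x g * m⁻¹ = at1 (m.rt x) (m.sec x * g * (m.sec x)⁻¹) := by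
  rw [mul_inv_eq_iff_eq_mul]
  apply ext'
  · rw [mul_rt, mul_rt, at1_rt, at1_rt, mul_one, one_mul]
  · intro y
    rw [sec_mul, sec_mul, at1_rt, Perm.one_apply]
    by_cases hy : y = x
    · subst hy
      rw [at1_sec_self, at1_sec_self]
      group
    · rw [at1_sec_ne hy, at1_sec_ne (fun h => hy (m.rt.injective h))]
      simp

/-- the element `g` placed at the vertex `v` -/
def put : List X → W X →* W X
  | [] => MonoidHom.id _
  | x :: v => (at1 x).comp (put v)

lemma put_nil (g : W X) : put [] g = g := rfl

lemma put_cons (x : X) (v : List X) (g : W X) : put (x :: v) g = at1 x (put v g) := rfl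

lemma put_append (u v : List X) (g : W X) : put (u ++ v) g = put u (put v g) := by
  induction u with
  | nil => rfl
  | cons x u ih => rw [List.cons_append, put_cons, put_cons, ih]

/-- `put v g` fixes all words which do not have the prefix `v` -/
lemma put_act_of_not {v w : List X} (g : W X) (h : ¬ v <+: w) : (put v g).act w = w := by
  induction v generalizing w with
  | nil => exact absurd List.nil_prefix h
  | cons x v ih =>
    cases w with
    | nil => rfl
    | cons y w =>
      rw [put_cons, act, at1_rt, Perm.one_apply]
      by_cases hy : y = x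
      · subst hy
        rw [at1_sec_self, ih]
        intro h1
        apply h
        rw [List.cons_prefix_cons]
        exact ⟨rfl, h1⟩
      · rw [at1_sec_ne hy, act_one]

/-- the stabilizer of the first level -/
def rtHom : W X →* Perm X where
  toFun g := g.rt
  map_one' := rfl
  map_mul' _ _ := rfl

/-- iterated finite products -/
def Pow (D : Subgroup (W X)) : ℕ → Subgroup (W X)
  | 0 => D
  | n + 1 => (Subgroup.pi Set.univ (fun _ : X => Pow D n)).map node

lemma mem_Pow_succ {D : Subgroup (W X)} {n : ℕ} {g : W X} :
    g ∈ Pow D (n + 1) ↔ g.rt = 1 ∧ ∀ x, g.sec x ∈ Pow D n := by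
  constructor
  · rintro ⟨f, hf, rfl⟩
    exact ⟨rfl, fun x => hf x trivial⟩
  · rintro ⟨h0, h⟩
    exact ⟨g.sec, fun x _ => h x, node_sec_eq h0⟩

variable [Finite X]

lemma Pow_le_of {D : Subgroup (W X)} (n : ℕ) (M : Subgroup (W X))
    (h : ∀ v : List X, v.length = n → ∀ g ∈ D, put v g ∈ M) : Pow D n ≤ M := by
  induction n generalizing M with
  | zero =>
    intro g hg
    exact h [] rfl g hg
  | succ n ih =>
    intro g hg
    obtain ⟨f, hf, rfl⟩ := hg
    have : f ∈ M.comap node := by
      apply Subgroup.pi_mem_of_mulSingle_mem
      intro x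
      rw [Subgroup.mem_comap]
      have h1 : Pow D n ≤ M.comap (at1 x) := by
        apply ih
        intro v hv g hg
        rw [Subgroup.mem_comap, ← put_cons]
        exact h (x :: v) (by simp [hv]) g hg
      exact h1 (hf x trivial)
    exact this

/-- the rigid level stabilizer, for portraits -/
def RistW (K : Subgroup (W X)) (n : ℕ) : Subgroup (W X) :=
  Subgroup.closure {g | g ∈ K ∧ ∃ v : List X, v.length = n ∧ ∀ w, ¬ v <+: w → g.act w = w}

lemma index_pow {K D : Subgroup (W X)} (hK : ∀ g ∈ K, ∀ x, g.sec x ∈ K)
    (hD : D.relIndex K ≠ 0) (n : ℕ) : (Pow D n).relIndex K ≠ 0 := by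
  induction n with
  | zero => exact hD
  | succ n ih =>
    have h0 : Pow D (n + 1) ⊓ K ≤ K ⊓ rtHom.ker := by
      intro g hg
      exact ⟨hg.2, (mem_Pow_succ.mp hg.1).1⟩
    rw [← Subgroup.inf_relIndex_right, ← Subgroup.relIndex_mul_relIndex _ (K ⊓ rtHom.ker) _ h0
      inf_le_left]
    apply mul_ne_zero
    · let s : X → (↥(K ⊓ (rtHom : W X →* Perm X).ker) →* W X) := fun x =>
        { toFun := fun g => g.1.sec x
          map_one' := rfl
          map_mul' := fun g h => by
            have h2 : h.1.rt = 1 := h.2.2
            show (g.1 * h.1).sec x = _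
            rw [sec_mul, h2, Perm.one_apply] }
      have h1 : (Pow D (n + 1) ⊓ K).subgroupOf (K ⊓ rtHom.ker) = ⨅ x, (Pow D n).comap (s x) := by
        ext g
        rw [Subgroup.mem_subgroupOf, Subgroup.mem_iInf, Subgroup.mem_inf, mem_Pow_succ]
        constructor
        · rintro ⟨⟨_, h⟩, _⟩ x
          exact h x
        · intro h
          exact ⟨⟨g.2.2, h⟩, g.2.1⟩
      have h2 : ∀ x, ((Pow D n).comap (s x)).FiniteIndex := by
        intro x
        constructor
        rw [Subgroup.index_comap]
        have h3 : (s x).range ≤ K := by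
          rintro _ ⟨g, rfl⟩
          exact hK g.1 g.2.1 x
        intro h4
        exact ih (Subgroup.relIndex_eq_zero_of_le_right h3 h4)
      have h3 : ((Pow D (n + 1) ⊓ K).subgroupOf (K ⊓ rtHom.ker)).FiniteIndex := by
        rw [h1]
        exact Subgroup.finiteIndex_iInf h2
      exact h3.index_ne_zero
    · rw [Subgroup.inf_relIndex_left]
      have : (rtHom (X := X)).ker.FiniteIndex := by
        have : Finite (Perm X) := inferInstance
        infer_instance
      have h2 := Subgroup.relIndex_dvd_index_of_normal (rtHom (X := X)).ker K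
      intro h3
      rw [h3] at h2
      exact this.index_ne_zero (Nat.eq_zero_of_zero_dvd h2)

/-- A criterion for the rigid level stabilizers to have finite index. -/
lemma rist_of {K N : Subgroup (W X)} (hK : ∀ g ∈ K, ∀ x, g.sec x ∈ K)
    (hN : N ≤ K) (hi : N.relIndex K ≠ 0) (hat : ∀ n ∈ N, ∀ x, at1 x n ∈ K) (n : ℕ) :
    (RistW K n).relIndex K ≠ 0 := by
  have key : ∀ n : ℕ, ∃ L : Subgroup (W X), L.relIndex K ≠ 0 ∧
      ∀ v : List X, v.length = n → ∀ g ∈ L, put v g ∈ K := by
    intro n
    induction n with
    | zero =>
      refine ⟨K, by simp, ?_⟩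
      intro v hv g hg
      rw [List.length_eq_zero_iff.mp hv]
      exact hg
    | succ n ih =>
      obtain ⟨L, hL, hLv⟩ := ih
      refine ⟨N ⊓ ⨅ x, (L ⊓ K).comap (at1 x), ?_, ?_⟩
      · rw [← Subgroup.relIndex_mul_relIndex _ N _ inf_le_left hN]
        refine mul_ne_zero ?_ hi
        rw [Subgroup.inf_relIndex_left]
        have h1 : ∀ x, ((L ⊓ K).comap (at1 x)).relIndex N ≠ 0 := by
          intro x
          rw [Subgroup.relIndex_comap]
          have h2 : N.map (at1 x) ≤ K := by
            rintro _ ⟨g, hg, rfl⟩
            exact hat g hg x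
          intro h3
          have h4 := Subgroup.relIndex_eq_zero_of_le_right h2 h3
          rw [Subgroup.inf_relIndex_right] at h4
          exact hL h4
        have h5 : ((⨅ x, (L ⊓ K).comap (at1 x)).subgroupOf N).FiniteIndex := by
          have h6 : (⨅ x, (L ⊓ K).comap (at1 x)).subgroupOf N =
              ⨅ x, ((L ⊓ K).comap (at1 x)).subgroupOf N := by
            unfold Subgroup.subgroupOf
            rw [Subgroup.comap_iInf]
          rw [h6]
          exact Subgroup.finiteIndex_iInf fun x => ⟨h1 x⟩
        exact h5.index_ne_zero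
      · intro v hv g hg
        obtain ⟨u, x, rfl⟩ : ∃ u x, v = u ++ [x] := by
          have : v ≠ [] := by
            rintro rfl
            simp at hv
          exact ⟨v.dropLast, v.getLast this, (List.dropLast_append_getLast this).symm⟩
        rw [put_append]
        apply hLv u (by simpa using hv)
        have h2 : g ∈ ⨅ x, (L ⊓ K).comap (at1 x) := hg.2
        rw [Subgroup.mem_iInf] at h2
        exact (h2 x).1
  obtain ⟨L, hL, hLv⟩ := key n
  have h1 : Pow (L ⊓ K) n ≤ RistW K n := by
    apply Pow_le_of
    intro v hv g hg
    apply Subgroup.subset_closure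
    exact ⟨hLv v hv g hg.1, v, hv, fun w hw => put_act_of_not g hw⟩
  have h2 : (L ⊓ K).relIndex K ≠ 0 := by
    rwa [Subgroup.inf_relIndex_right]
  intro h3
  exact index_pow hK h2 n (Subgroup.relIndex_eq_zero_of_le_left h1 h3)

end W

end Pool.Agent.R632.Eng
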